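import Mathlib

/-!
# Positive semidefinite block forms on `ℝ³ ⊕ ℝ³`
-/

set_option autoImplicit false

namespace Pool.Agent.Run7.h82.BM

open Finset

/-- the block form `(α, γ) ↦ P(α, α) + 2 B(α, γ) + Q(γ, γ)` is symmetric and positive
semidefinite -/
structure Blk (P Q B : Fin 3 → Fin 3 → ℝ) : Prop where
  symP : ∀ i j, P j i = P i j
  symQ : ∀ i j, Q j i = Q i j
  psd : ∀ α γ : Fin 3 → ℝ,
    0 ≤ (∑ i, ∑ j, P i j * (α i * α j)) + 2 * (∑ i, ∑ j, B i j * (α i * γ j)) +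
      ∑ i, ∑ j, Q i j * (γ i * γ j)

/-- sum of squares of the entries -/
def nn (A : Fin 3 → Fin 3 → ℝ) : ℝ := ∑ i, ∑ j, A i j ^ 2

/-- trace -/
def tr (A : Fin 3 → Fin 3 → ℝ) : ℝ := ∑ i, A i i

theorem disc {a b c : ℝ} (h : ∀ x y : ℝ, 0 ≤ a * x ^ 2 + 2 * b * (x * y) + c * y ^ 2) :
    0 ≤ a ∧ 0 ≤ c ∧ b ^ 2 ≤ a * c := by
  have ha : 0 ≤ a := by have := h 1 0; linarith
  have hc : 0 ≤ c := by have := h 0 1; linarith
  refine ⟨ha, hc, ?_⟩
  by_contra hh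
  push Not at hh
  rcases eq_or_lt_of_le ha with h0 | h0
  · subst h0
    have hb : b ≠ 0 := by
      intro hb; subst hb; simp at hh
    have h1 := h (-(c + 1) / (2 * b)) 1
    have : 0 * (-(c + 1) / (2 * b)) ^ 2 + 2 * b * (-(c + 1) / (2 * b) * 1) + c * 1 ^ 2 = -1 := by
      field_simp
      ring
    linarith
  · have h1 := h (-b) a
    have : a * (-b) ^ 2 + 2 * b * (-b * a) + c * a ^ 2 = a * (a * c - b ^ 2) := by ring
    rw [this] at h1
    have : a * (a * c - b ^ 2) < 0 := mul_neg_of_pos_of_neg h0 (by linarith)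
    linarith

variable {P Q B : Fin 3 → Fin 3 → ℝ}

theorem Blk.p_entry (h : Blk P Q B) (i j : Fin 3) :
    0 ≤ P i i ∧ 0 ≤ P j j ∧ P i j ^ 2 ≤ P i i * P j j := by
  by_cases hij : i = j
  · subst hij
    have := h.psd (fun k => if k = i then 1 else 0) 0
    have h0 : 0 ≤ P i i := by
      simpa [Finset.sum_ite_eq', mul_ite] using this
    exact ⟨h0, h0, by rw [sq]⟩
  · refine disc fun x y => ?_
    have := h.psd (fun k => if k = i then x else if k = j then y else 0) 0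
    have hs := h.symP i j
    revert hs
    fin_cases i <;> fin_cases j <;> simp_all [Fin.sum_univ_three] <;> intro hs <;>
      (try rw [hs] at this) <;> nlinarith [this]

theorem Blk.swap (h : Blk P Q B) : Blk Q P (fun i j => B j i) := by
  refine ⟨h.symQ, h.symP, fun α γ => ?_⟩
  have := h.psd γ α
  have e : ∑ i, ∑ j, B j i * (α i * γ j) = ∑ i, ∑ j, B i j * (γ i * α j) := by
    rw [sum_comm]
    refine sum_congr rfl fun i _ => sum_congr rfl fun j _ => ?_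
    ring
  rw [e]
  linarith

theorem Blk.nn_le (h : Blk P Q B) : nn P ≤ tr P ^ 2 := by
  have h0 := fun i j => (h.p_entry i j).2.2
  have e : tr P ^ 2 = ∑ i, ∑ j, P i i * P j j := by
    rw [sq, tr, sum_mul_sum]
  rw [e]
  exact sum_le_sum fun i _ => sum_le_sum fun j _ => h0 i j

theorem Blk.tr_nonneg (h : Blk P Q B) : 0 ≤ tr P :=
  sum_nonneg fun i _ => (h.p_entry i i).1

theorem tr_sq_le (P : Fin 3 → Fin 3 → ℝ) : tr P ^ 2 ≤ 3 * nn P := by
  simp only [tr, nn, Fin.sum_univ_three]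
  nlinarith [sq_nonneg (P 0 0 - P 1 1), sq_nonneg (P 0 0 - P 2 2), sq_nonneg (P 1 1 - P 2 2),
    sq_nonneg (P 0 1), sq_nonneg (P 0 2), sq_nonneg (P 1 0), sq_nonneg (P 1 2), sq_nonneg (P 2 0),
    sq_nonneg (P 2 1)]

theorem nn_nonneg (P : Fin 3 → Fin 3 → ℝ) : 0 ≤ nn P :=
  sum_nonneg fun _ _ => sum_nonneg fun _ _ => sq_nonneg _

theorem quad_le (Q : Fin 3 → Fin 3 → ℝ) (v : Fin 3 → ℝ) :
    ∑ i, ∑ j, Q i j * (v i * v j) ≤ Real.sqrt (nn Q) * ∑ i, v i ^ 2 := by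
  have h0 : 0 ≤ ∑ i, v i ^ 2 := sum_nonneg fun _ _ => sq_nonneg _
  have h1 : (∑ p : Fin 3 × Fin 3, Q p.1 p.2 * (v p.1 * v p.2)) ^ 2 ≤
      (∑ p : Fin 3 × Fin 3, Q p.1 p.2 ^ 2) * ∑ p : Fin 3 × Fin 3, (v p.1 * v p.2) ^ 2 :=
    sum_mul_sq_le_sq_mul_sq _ _ _
  have e1 : ∑ p : Fin 3 × Fin 3, Q p.1 p.2 * (v p.1 * v p.2) =
      ∑ i, ∑ j, Q i j * (v i * v j) := Fintype.sum_prod_type _
  have e2 : ∑ p : Fin 3 × Fin 3, Q p.1 p.2 ^ 2 = nn Q := Fintype.sum_prod_type _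
  have e3 : ∑ p : Fin 3 × Fin 3, (v p.1 * v p.2) ^ 2 = (∑ i, v i ^ 2) ^ 2 := by
    rw [Fintype.sum_prod_type, sq, sum_mul_sum]
    refine sum_congr rfl fun i _ => sum_congr rfl fun j _ => ?_
    ring
  rw [e1, e2, e3] at h1
  have h2 : (Real.sqrt (nn Q) * ∑ i, v i ^ 2) ^ 2 = nn Q * (∑ i, v i ^ 2) ^ 2 := by
    rw [mul_pow, Real.sq_sqrt (nn_nonneg Q)]
  exact le_of_sq_le_sq (by rw [h2]; exact h1) (mul_nonneg (Real.sqrt_nonneg _) h0)
where
  le_of_sq_le_sq {x y : ℝ} (h : x ^ 2 ≤ y ^ 2) (hy : 0 ≤ y) : x ≤ y := by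
    exact le_trans (le_abs_self x) (abs_le_of_sq_le_sq h hy)

theorem Blk.row (h : Blk P Q B) (i : Fin 3) :
    ∑ j, B i j ^ 2 ≤ P i i * Real.sqrt (nn Q) := by
  set s := ∑ j, B i j ^ 2 with hs
  have hs0 : 0 ≤ s := sum_nonneg fun _ _ => sq_nonneg _
  have hd := disc (a := P i i) (b := s) (c := ∑ j, ∑ k, Q j k * (B i j * B i k)) (by
    intro x y
    have := h.psd (fun k => if k = i then x else 0) (fun k => y * B i k)
    have e1 : ∑ j, ∑ k, P j k * ((if j = i then x else 0) * (if k = i then x else 0)) =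
        P i i * x ^ 2 := by
      rw [sum_eq_single i (by intro j _ hj; simp [hj]) (by simp)]
      rw [sum_eq_single i (by intro j _ hj; simp [hj]) (by simp), if_pos rfl]
      ring
    have e2 : ∑ j, ∑ k, B j k * ((if j = i then x else 0) * (y * B i k)) = s * (x * y) := by
      rw [sum_eq_single i (by intro j _ hj; simp [hj]) (by simp), hs, sum_mul]
      refine sum_congr rfl fun k _ => ?_
      simp; ring
    have e3 : ∑ j, ∑ k, Q j k * (y * B i j * (y * B i k)) =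
        (∑ j, ∑ k, Q j k * (B i j * B i k)) * y ^ 2 := by
      rw [sum_mul]
      refine sum_congr rfl fun j _ => ?_
      rw [sum_mul]
      refine sum_congr rfl fun k _ => ?_
      ring
    rw [e1, e2, e3] at this
    linarith)
  have h1 := quad_le Q (fun j => B i j)
  rw [← hs] at h1
  have h2 : s ^ 2 ≤ P i i * (Real.sqrt (nn Q) * s) :=
    le_trans hd.2.2 (mul_le_mul_of_nonneg_left h1 hd.1)
  rcases eq_or_lt_of_le hs0 with h3 | h3
  · rw [← h3]
    exact mul_nonneg hd.1 (Real.sqrt_nonneg _)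
  · by_contra hh
    push Not at hh
    have : P i i * (Real.sqrt (nn Q) * s) < s ^ 2 := by
      rw [sq, ← mul_assoc]
      exact mul_lt_mul_of_pos_right hh h3
    linarith

theorem Blk.b_le (h : Blk P Q B) : nn B ≤ tr P * Real.sqrt (nn Q) := by
  rw [nn, tr, sum_mul]
  exact sum_le_sum fun i _ => h.row i

theorem Blk.q_le (h : Blk P Q B) : Real.sqrt (nn Q) ≤ tr Q := by
  have h1 := h.swap.nn_le
  rw [← Real.sqrt_sq h.swap.tr_nonneg]
  exact Real.sqrt_le_sqrt h1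

/-- scalar inequality -/
theorem scal_ineq {a b q : ℝ} (ha : 0 ≤ a) (hb : 0 ≤ b) (hq0 : 0 ≤ q) (hq : 3 * b ^ 2 ≤ q ^ 2)
    (hq2 : q ≤ 3 * b) :
    6 * a ^ 2 + 6 * a * q - 3 * q ^ 2 + 9 * b ^ 2 ≤ 63 / 10 * (a + b) ^ 2 := by
  rcases le_or_gt (q + 3 * b) (2 * a) with h1 | h1
  · nlinarith [sq_nonneg (a - 9 * b), mul_nonneg (sub_nonneg.2 hq2) (sub_nonneg.2 h1)]
  · have ha3 : a ≤ 3 * b := by linarith
    rcases le_or_gt b (4 * a) with h2 | h2
    · nlinarith [sq_nonneg (q - a), mul_nonneg (sub_nonneg.2 ha3) (sub_nonneg.2 h2), mul_nonneg ha hb,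
        sq_nonneg b]
    · have h3 : 17 / 10 * b ≤ q := by
        by_contra hh
        push Not at hh
        nlinarith
      have h4 : 0 ≤ q - a - 29 / 20 * b := by linarith
      nlinarith [mul_nonneg h4 hb, mul_nonneg h4 h4, mul_nonneg ha hb]

theorem Blk.main (h : Blk P Q B) {a b : ℝ} (ha : tr P = 3 * a) (hb : tr Q = 3 * b) :
    nn P - 3 * a ^ 2 + 2 * nn B - 3 * (nn Q - 3 * b ^ 2) ≤ 63 / 10 * (a + b) ^ 2 := by
  have ha0 : 0 ≤ a := by have := h.tr_nonneg; linarith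
  have hb0 : 0 ≤ b := by have := h.swap.tr_nonneg; linarith
  have h1 := h.nn_le
  have h2 := h.b_le
  have h3 := h.q_le
  have h4 := tr_sq_le Q
  have h5 := Real.sq_sqrt (nn_nonneg Q)
  have h6 := Real.sqrt_nonneg (nn Q)
  rw [ha] at h1 h2
  rw [hb] at h3 h4
  have h7 := scal_ineq ha0 hb0 h6 (by rw [h5]; linarith) h3
  rw [h5] at h7
  nlinarith

end Pool.Agent.Run7.h82.BM
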