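import Pool.Agent.Run7.h82.BM.Vec

/-!
# Extremal curvature tensors
-/

set_option autoImplicit false

namespace Pool.Agent.Run7.h82.BM

open Finset
open Pool.Agent.W666.GB (AlgCurv)

/-- Euclidean four-space -/
abbrev E4 : Type := EuclideanSpace ℝ (Fin 4)

/-- the standard basis -/
noncomputable def sb : OrthonormalBasis (Fin 4) ℝ E4 := EuclideanSpace.basisFun (Fin 4) ℝ

/-- the two-form `2 e⁰ ∧ e¹ + s e² ∧ e³` -/
noncomputable def nu (s : ℝ) (x y : E4) : ℝ :=
  2 * (x 0 * y 1 - x 1 * y 0) + s * (x 2 * y 3 - x 3 * y 2)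

/-- the extremal tensor -/
noncomputable def exR (s u k : ℝ) (x y z w : E4) : ℝ :=
  k * ((x 0 * z 0 + x 1 * z 1 + x 2 * z 2 + x 3 * z 3) *
      (y 0 * w 0 + y 1 * w 1 + y 2 * w 2 + y 3 * w 3) -
    (x 0 * w 0 + x 1 * w 1 + x 2 * w 2 + x 3 * w 3) *
      (y 0 * z 0 + y 1 * z 1 + y 2 * z 2 + y 3 * z 3)) -
  6 / 5 * (k - u) * (2 / 3 * (nu s x y * nu s z w) +
    1 / 3 * (nu s x z * nu s y w - nu s x w * nu s y z))

theorem exR_curv (s u k : ℝ) : AlgCurv (exR s u k) where
  add x x' y z w := by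
    simp only [exR, nu, PiLp.add_apply]
    ring
  smul t x y z w := by
    simp only [exR, nu, PiLp.smul_apply, smul_eq_mul]
    ring
  anti x y z w := by
    simp only [exR, nu]
    ring
  pair x y z w := by
    simp only [exR, nu]
    ring
  bianchi x y z w := by
    simp only [exR, nu]
    ring

theorem exR_sec (s u k : ℝ) (x y : E4) (hx : ‖x‖ = 1) (hy : ‖y‖ = 1) (hxy : inner ℝ x y = 0) :
    exR s u k x y x y = k - 6 / 5 * (k - u) * nu s x y ^ 2 := by
  have h1 : x 0 * x 0 + x 1 * x 1 + x 2 * x 2 + x 3 * x 3 = 1 := by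
    have := real_inner_self_eq_norm_sq x
    rw [hx, PiLp.inner_apply, Fin.sum_univ_four] at this
    simp at this
    linear_combination this
  have h2 : y 0 * y 0 + y 1 * y 1 + y 2 * y 2 + y 3 * y 3 = 1 := by
    have := real_inner_self_eq_norm_sq y
    rw [hy, PiLp.inner_apply, Fin.sum_univ_four] at this
    simp at this
    linear_combination this
  have h3 : x 0 * y 0 + x 1 * y 1 + x 2 * y 2 + x 3 * y 3 = 0 := by
    rw [PiLp.inner_apply, Fin.sum_univ_four] at hxy
    simpa [mul_comm] using hxy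
  unfold exR
  rw [h1, h2, h3]
  have e1 : nu s x x = 0 := by unfold nu; ring
  have e2 : nu s y x = - nu s x y := by unfold nu; ring
  rw [e1, e2]
  ring

theorem exR_le {s u k : ℝ} (huk : u ≤ k) : SecLe (exR s u k) k := by
  intro x y hx hy hxy
  rw [exR_sec s u k x y hx hy hxy]
  nlinarith [mul_nonneg (sub_nonneg.2 huk) (sq_nonneg (nu s x y))]

theorem exR_ge {s u k : ℝ} (huk : k ≤ u) : SecGe (exR s u k) k := by
  intro x y hx hy hxy
  rw [exR_sec s u k x y hx hy hxy]
  nlinarith [mul_nonneg (sub_nonneg.2 huk) (sq_nonneg (nu s x y))]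

theorem exR_scal (s u k : ℝ) (hs : s ^ 2 = 1) : scal sb (exR s u k) = 12 * u := by
  simp only [scal, sclA, cmp, Fin.sum_univ_four, exR, nu, sb, EuclideanSpace.basisFun_apply]
  simp
  linear_combination (-12 / 5 * (k - u)) * hs

theorem exR_pon (s u k : ℝ) (hs : s ^ 2 = 1) :
    s * pon sb (exR s u k) = eul sb (exR s u k) - (3 * u ^ 2 - 63 / 5 * (u - k) ^ 2) := by
  simp only [pon, ponA, eul, eulA, wdg, cmp, exR, nu, sb, EuclideanSpace.basisFun_apply]
  simp
  have h4 : s ^ 4 = 1 := by nlinarith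
  ring_nf
  rw [hs, h4]
  ring

theorem exR_pon_nonneg (s u k : ℝ) (hs : s ^ 2 = 1) : 0 ≤ s * pon sb (exR s u k) := by
  have e1 : s * pon sb (exR s u k) = 96 / 5 * (k - u) ^ 2 := by
    simp only [pon, ponA, wdg, cmp, exR, nu, sb, EuclideanSpace.basisFun_apply]
    simp
    have h4 : s ^ 4 = 1 := by nlinarith
    ring_nf
    rw [hs, h4]
    ring
  rw [e1]
  positivity

theorem exR_abs (s u k : ℝ) (hs : s ^ 2 = 1) :
    |pon sb (exR s u k)| = eul sb (exR s u k) - (3 * u ^ 2 - 63 / 5 * (u - k) ^ 2) := by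
  rw [← exR_pon s u k hs]
  have h1 : |s| = 1 := by
    have h2 : (s - 1) * (s + 1) = 0 := by linear_combination hs
    rcases mul_eq_zero.1 h2 with h | h
    · rw [sub_eq_zero.1 h]; simp
    · rw [eq_neg_of_add_eq_zero_left h]; simp
  rw [← abs_of_nonneg (exR_pon_nonneg s u k hs), abs_mul, h1, one_mul]

end Pool.Agent.Run7.h82.BM
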