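import Pool.Agent.Run7.h82.BM.Ex

/-!
# The sharp threshold and fields of curvature tensors
-/

set_option autoImplicit false

namespace Pool.Agent.Run7.h82.BM

open Finset MeasureTheory
open Pool.Agent.W666.GB (AlgCurv)

/-- the sharp threshold -/
theorem threshold {u k : ℝ} (huk : u ≤ k) :
    (∀ R : E4 → E4 → E4 → E4 → ℝ, AlgCurv R → SecLe R k → scal sb R = 12 * u →
      |pon sb R| ≤ eul sb R) ↔ 21 * (u - k) ^ 2 ≤ 5 * u ^ 2 := by
  constructor
  · intro h
    have h1 := h (exR 1 u k) (exR_curv 1 u k) (exR_le huk) (exR_scal 1 u k (by norm_num))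
    rw [exR_abs 1 u k (by norm_num)] at h1
    linarith
  · intro h R hR hk hs
    have h1 := pt_le sb hR hk
    rw [hs] at h1
    have e1 : 12 * u / 12 = u := by ring
    rw [e1] at h1
    linarith

/-- A field of algebraic curvature tensors: at every point `p` of `M` an oriented four-dimensional
Euclidean vector space `V p`, given with a positive orthonormal basis, and an algebraic curvature
tensor on it (for an oriented Riemannian four-manifold: the tangent space and the curvature tensor
at `p`). -/
structure CurvField (M : Type) where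
  V : M → Type
  [ng : ∀ p, NormedAddCommGroup (V p)]
  [ip : ∀ p, InnerProductSpace ℝ (V p)]
  e : ∀ p, OrthonormalBasis (Fin 4) ℝ (V p)
  R : ∀ p, V p → V p → V p → V p → ℝ
  curv : ∀ p, AlgCurv (R p)

namespace CurvField

attribute [instance] CurvField.ng CurvField.ip

variable {M : Type} (F : CurvField M)

/-- all sectional curvatures at `p` are at most `b` -/
def SecLe (p : M) (b : ℝ) : Prop := BM.SecLe (F.R p) b

/-- all sectional curvatures at `p` are at least `a` -/
def SecGe (p : M) (a : ℝ) : Prop := BM.SecGe (F.R p) a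

/-- the Euler form -/
noncomputable def eul (p : M) : ℝ := BM.eul (F.e p) (F.R p)

/-- the Pontryagin form -/
noncomputable def pon (p : M) : ℝ := BM.pon (F.e p) (F.R p)

/-- scalar curvature -/
noncomputable def scal (p : M) : ℝ := BM.scal (F.e p) (F.R p)

end CurvField

section
variable {M : Type} [MeasurableSpace M] (μ : Measure M) (F : CurvField M)

theorem int_main {g : M → ℝ} (h : ∀ p, |F.pon p| ≤ F.eul p - g p) (he : Integrable F.eul μ)
    (hp : Integrable F.pon μ) (hg : Integrable g μ) :
    |∫ p, F.pon p ∂μ| ≤ (∫ p, F.eul p ∂μ) - ∫ p, g p ∂μ := by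
  rw [← integral_sub he hg]
  refine le_trans (abs_integral_le_integral_abs) ?_
  exact integral_mono hp.abs (he.sub hg) h

/-- integral pinching -/
theorem int_pinch {k : M → ℝ} (h : ∀ p, F.SecLe p (k p) ∨ F.SecGe p (k p))
    (he : Integrable F.eul μ) (hp : Integrable F.pon μ) (hs : Integrable (fun p => F.scal p ^ 2) μ)
    (hk : Integrable (fun p => (F.scal p / 12 - k p) ^ 2) μ) :
    |∫ p, F.pon p ∂μ| ≤ (∫ p, F.eul p ∂μ) - (3 * ∫ p, (F.scal p / 12) ^ 2 ∂μ) +
      63 / 5 * ∫ p, (F.scal p / 12 - k p) ^ 2 ∂μ := by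
  have hs' : Integrable (fun p => (F.scal p / 12) ^ 2) μ := by
    have := hs.const_mul (1 / 144)
    refine this.congr (Filter.Eventually.of_forall fun p => ?_)
    show 1 / 144 * F.scal p ^ 2 = (F.scal p / 12) ^ 2
    ring
  have h1 := int_main μ F (g := fun p => 3 * (F.scal p / 12) ^ 2 - 63 / 5 * (F.scal p / 12 - k p) ^ 2)
    (fun p => by
      rcases h p with h | h
      · exact pt_le (F.e p) (F.curv p) h
      · exact pt_ge (F.e p) (F.curv p) h) he hp ((hs'.const_mul 3).sub (hk.const_mul (63 / 5)))
  rw [integral_sub (hs'.const_mul 3) (hk.const_mul (63 / 5)), integral_const_mul,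
    integral_const_mul] at h1
  linarith

end

section
variable {V : Type*} [NormedAddCommGroup V] [InnerProductSpace ℝ V]
variable (e : OrthonormalBasis (Fin 4) ℝ V) {R : V → V → V → V → ℝ}

theorem mean_le (hR : AlgCurv R) {k : ℝ} (h : SecLe R k) : scal e R ≤ 12 * k := by
  have ho : ∀ i j : Fin 4, i ≠ j → R (e i) (e j) (e i) (e j) ≤ k := fun i j hij =>
    h _ _ (e.orthonormal.1 i) (e.orthonormal.1 j) (e.orthonormal.2 hij)
  have h0 : ∀ i : Fin 4, R (e i) (e i) (e i) (e i) = 0 := fun i => hR.self12 _ _ _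
  simp only [scal, sclA, cmp, Fin.sum_univ_four, h0]
  have := ho 0 1 (by decide)
  have := ho 0 2 (by decide)
  have := ho 0 3 (by decide)
  have := ho 1 0 (by decide)
  have := ho 1 2 (by decide)
  have := ho 1 3 (by decide)
  have := ho 2 0 (by decide)
  have := ho 2 1 (by decide)
  have := ho 2 3 (by decide)
  have := ho 3 0 (by decide)
  have := ho 3 1 (by decide)
  have := ho 3 2 (by decide)
  linarith

/-- pointwise inequality for negative curvature -/
theorem neg_pt (hR : AlgCurv R) {c : ℝ} (h : SecLe R (-c))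
    (hs : -(2343 / 100 * c) ≤ scal e R) : |pon e R| ≤ eul e R - 1 / 200 * c ^ 2 := by
  have h1 := pt_le e hR h
  have hm := mean_le e hR h
  nlinarith [mul_nonneg (sub_nonneg.2 hm) (sub_nonneg.2 hs)]

/-- pointwise inequality with the value for constant curvature -/
theorem neg_vol (hR : AlgCurv R) {c : ℝ} (h : SecLe R (-c))
    (hs : -(39 / 2 * c) ≤ scal e R) : |pon e R| ≤ eul e R - 3 * c ^ 2 := by
  have h1 := pt_le e hR h
  have hm := mean_le e hR h
  nlinarith [mul_nonneg (sub_nonneg.2 hm) (sub_nonneg.2 hs)]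

end

end Pool.Agent.Run7.h82.BM
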