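import Pool.Agent.Run7.h82.BM.Alg

/-!
# Two block forms: trace inequality and the inequality for quarter pinching
-/

set_option autoImplicit false

namespace Pool.Agent.Run7.h82.BM

open Finset

variable {P Q B P' Q' B' : Fin 3 → Fin 3 → ℝ}

/-- the Kronecker symbol -/
def dl (i j : Fin 3) : ℝ := if i = j then 1 else 0

theorem Blk.decomp (h : Blk P Q B) : ∃ (m : ℕ) (v w : Fin m → Fin 3 → ℝ),
    (∀ i j, P i j = ∑ k, v k i * v k j) ∧ (∀ i j, Q i j = ∑ k, w k i * w k j) ∧
      (∀ i j, B i j = ∑ k, v k i * w k j) := by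
  set M : Matrix (Fin 3 ⊕ Fin 3) (Fin 3 ⊕ Fin 3) ℝ :=
    Matrix.fromBlocks (Matrix.of P) (Matrix.of B) (Matrix.of B).transpose (Matrix.of Q) with hM
  have hpsd : M.PosSemidef := by
    refine Matrix.PosSemidef.of_dotProduct_mulVec_nonneg ?_ ?_
    · rw [hM, Matrix.isHermitian_fromBlocks_iff]
      refine ⟨?_, ?_, ?_⟩
      · ext i j
        simp [Matrix.conjTranspose_apply, h.symP i j]
      · ext i j
        simp
      · refine ⟨?_, ?_⟩
        · ext i j
          simp
        · ext i j
          simp [Matrix.conjTranspose_apply, h.symQ i j]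
    · intro x
      have := h.psd (fun i => x (Sum.inl i)) (fun i => x (Sum.inr i))
      have e : star x ⬝ᵥ (M.mulVec x) =
          (∑ i, ∑ j, P i j * (x (Sum.inl i) * x (Sum.inl j))) +
          2 * (∑ i, ∑ j, B i j * (x (Sum.inl i) * x (Sum.inr j))) +
          ∑ i, ∑ j, Q i j * (x (Sum.inr i) * x (Sum.inr j)) := by
        simp only [hM, dotProduct, Matrix.mulVec, Fintype.sum_sum_type, Matrix.fromBlocks_apply₁₁,
          Matrix.fromBlocks_apply₁₂, Matrix.fromBlocks_apply₂₁, Matrix.fromBlocks_apply₂₂,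
          Matrix.transpose_apply, Matrix.of_apply, Pi.star_apply, star_trivial,
          Fin.sum_univ_three]
        ring
      rw [e]
      exact this
  obtain ⟨m, v, hv⟩ := Matrix.posSemidef_iff_eq_sum_vecMulVec.1 hpsd
  have hent : ∀ a b, M a b = ∑ k, v k a * v k b := by
    intro a b
    rw [hv, Matrix.sum_apply]
    refine sum_congr rfl fun k _ => ?_
    simp [Matrix.vecMulVec_apply]
  refine ⟨m, fun k i => v k (Sum.inl i), fun k i => v k (Sum.inr i), ?_, ?_, ?_⟩
  · intro i j
    have := hent (Sum.inl i) (Sum.inl j)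
    simpa [hM] using this
  · intro i j
    have := hent (Sum.inr i) (Sum.inr j)
    simpa [hM] using this
  · intro i j
    have := hent (Sum.inl i) (Sum.inr j)
    simpa [hM] using this

theorem Blk.trace_mul (h : Blk P Q B) (h' : Blk P' Q' B') :
    0 ≤ (∑ i, ∑ j, P i j * P' i j) + 2 * (∑ i, ∑ j, B i j * B' i j) +
      ∑ i, ∑ j, Q i j * Q' i j := by
  obtain ⟨m, v, w, hP, hQ, hB⟩ := h.decomp
  have h1 : 0 ≤ ∑ k, ((∑ i, ∑ j, P' i j * (v k i * v k j)) +
      2 * (∑ i, ∑ j, B' i j * (v k i * w k j)) + ∑ i, ∑ j, Q' i j * (w k i * w k j)) :=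
    sum_nonneg fun k _ => h'.psd (v k) (w k)
  have e : ∀ (X Y : Fin 3 → Fin 3 → ℝ) (x y : Fin m → Fin 3 → ℝ),
      (∀ i j, X i j = ∑ k, x k i * y k j) →
      ∑ i, ∑ j, X i j * Y i j = ∑ k, ∑ i, ∑ j, Y i j * (x k i * y k j) := by
    intro X Y x y hX
    rw [sum_comm' (t' := univ) (s' := fun _ => univ) (by simp)]
    conv_rhs => rw [sum_comm]
    rw [sum_comm]
    refine sum_congr rfl fun i _ => ?_
    rw [sum_comm]
    refine sum_congr rfl fun j _ => ?_
    rw [hX, sum_mul]
    refine sum_congr rfl fun k _ => ?_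
    ring
  rw [e P P' v v hP, e Q Q' w w hQ, e B B' v w hB, mul_sum, ← sum_add_distrib, ← sum_add_distrib]
  exact h1

theorem nn_sub (A : Fin 3 → Fin 3 → ℝ) (x : ℝ) :
    nn (fun i j => A i j - x * dl i j) = nn A - 2 * x * tr A + 3 * x ^ 2 := by
  simp only [nn, tr, Fin.sum_univ_three, dl]
  simp
  ring

theorem tr_sub (A : Fin 3 → Fin 3 → ℝ) (x : ℝ) :
    tr (fun i j => A i j - x * dl i j) = tr A - 3 * x := by
  simp only [tr, Fin.sum_univ_three, dl]
  simp
  ring

theorem tr_sub' (A : Fin 3 → Fin 3 → ℝ) (x : ℝ) :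
    tr (fun i j => x * dl i j - A i j) = 3 * x - tr A := by
  simp only [tr, Fin.sum_univ_three, dl]
  simp
  ring

theorem mul_sub (A : Fin 3 → Fin 3 → ℝ) (x y : ℝ) :
    ∑ i, ∑ j, (A i j - x * dl i j) * (y * dl i j - A i j) =
      (x + y) * tr A - nn A - 3 * x * y := by
  simp only [nn, tr, Fin.sum_univ_three, dl]
  simp
  ring

variable {A D : Fin 3 → Fin 3 → ℝ}

/-- the sharp inequality in terms of `A`, `D`, `B` -/
theorem mean_ineq {c t u : ℝ} (hA : tr A = 3 * u) (hD : tr D = 3 * u)
    (h : Blk (fun i j => A i j - (c - t) * dl i j) (fun i j => D i j - (c + t) * dl i j) B) :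
    nn A + 2 * nn B - 3 * nn D ≤ 126 / 5 * (u - c) ^ 2 - 6 * u ^ 2 := by
  have h1 := h.main (a := u - c + t) (b := u - c - t) (by rw [tr_sub, hA]; ring)
    (by rw [tr_sub, hD]; ring)
  rw [nn_sub, nn_sub, hA, hD] at h1
  nlinarith

theorem fine_ineq {c t u : ℝ} (hA : tr A = 3 * u) (hD : tr D = 3 * u)
    (h : Blk (fun i j => A i j - (c - t) * dl i j) (fun i j => D i j - (c + t) * dl i j) B) :
    ∃ q : ℝ, 0 ≤ q ∧ 3 * (u - c - t) ^ 2 ≤ q ^ 2 ∧ q ≤ 3 * (u - c - t) ∧
      nn A + 2 * nn B - 3 * nn D ≤ 6 * (u - c + t) ^ 2 + 6 * (u - c + t) * q - 3 * q ^ 2 +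
        9 * (u - c - t) ^ 2 - 6 * u ^ 2 := by
  have eP : tr (fun i j => A i j - (c - t) * dl i j) = 3 * (u - c + t) := by rw [tr_sub, hA]; ring
  have eQ : tr (fun i j => D i j - (c + t) * dl i j) = 3 * (u - c - t) := by rw [tr_sub, hD]; ring
  have h1 := h.nn_le
  have h2 := h.b_le
  have h3 := h.q_le
  have h4 := tr_sq_le (fun i j => D i j - (c + t) * dl i j)
  have h5 := Real.sq_sqrt (nn_nonneg (fun i j => D i j - (c + t) * dl i j))
  have h6 := Real.sqrt_nonneg (nn (fun i j => D i j - (c + t) * dl i j))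
  rw [eP] at h1 h2
  rw [eQ] at h3 h4
  refine ⟨_, h6, ?_, h3, ?_⟩
  · rw [h5]; nlinarith
  · rw [h5]
    rw [nn_sub, hA] at h1
    have e7 := nn_sub D (c + t)
    rw [hD] at e7
    nlinarith

/-- quarter pinching -/
theorem ville {c t s u : ℝ} (hc : 0 ≤ c) (hA : tr A = 3 * u) (hD : tr D = 3 * u)
    (h : Blk (fun i j => A i j - (c - t) * dl i j) (fun i j => D i j - (c + t) * dl i j) B)
    (h' : Blk (fun i j => (4 * c + s) * dl i j - A i j) (fun i j => (4 * c - s) * dl i j - D i j)
      (fun i j => - B i j)) :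
    nn A + 2 * nn B ≤ 3 * nn D := by
  have ha : 0 ≤ u - c + t := by
    have := h.tr_nonneg
    rw [tr_sub, hA] at this
    linarith
  have hb : 0 ≤ u - c - t := by
    have := h.swap.tr_nonneg
    rw [tr_sub, hD] at this
    linarith
  have ha' : 0 ≤ 4 * c + s - u := by
    have := h'.tr_nonneg
    rw [tr_sub', hA] at this
    linarith
  have hb' : 0 ≤ 4 * c - s - u := by
    have := h'.swap.tr_nonneg
    rw [tr_sub', hD] at this
    linarith
  have hDD : 3 * u ^ 2 ≤ nn D := by
    have := tr_sq_le D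
    rw [hD] at this
    linarith
  have hi : nn A + 2 * nn B + nn D ≤ 30 * c * u - 24 * c ^ 2 + 6 * (t * s) := by
    have := h.trace_mul h'
    rw [mul_sub, mul_sub, hA, hD] at this
    have e : ∑ i, ∑ j, B i j * - B i j = - nn B := by
      simp only [nn, Fin.sum_univ_three]
      ring
    rw [e] at this
    nlinarith
  have hmean := mean_ineq hA hD h
  obtain ⟨q, hq0, hq1, hq2, hfine⟩ := fine_ineq hA hD h
  rcases le_or_gt (2 * c) u with h2 | h2
  · -- `u ≥ 2 c`
    have hts : t * s ≤ (u - c) * (4 * c - u) := by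
      have h1 : |t| ≤ u - c := abs_le.2 ⟨by linarith, by linarith⟩
      have h3 : |s| ≤ 4 * c - u := abs_le.2 ⟨by linarith, by linarith⟩
      calc t * s ≤ |t * s| := le_abs_self _
        _ = |t| * |s| := abs_mul _ _
        _ ≤ (u - c) * (4 * c - u) := mul_le_mul h1 h3 (abs_nonneg _) (by linarith [abs_nonneg t])
    nlinarith [mul_nonneg (sub_nonneg.2 h2) (by linarith : (0 : ℝ) ≤ 3 * u - 4 * c)]
  · obtain ⟨β, rfl⟩ : ∃ β, u = c + β := ⟨u - c, by ring⟩
    have e1 : c + β - c = β := by ring
    rw [e1] at ha hb hmean hq1 hq2 hfine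
    have hβ0 : 0 ≤ β := by linarith
    have hβc : β < c := by linarith
    rcases le_or_gt β (19 / 20 * c) with h3 | h3
    · nlinarith [mul_nonneg hβ0 (sub_nonneg.2 h3), mul_nonneg hc (sub_nonneg.2 h3)]
    · rcases le_or_gt (t * s) (2 * (c + β) ^ 2 - 5 * c * (c + β) + 4 * c ^ 2) with h4 | h4
      · nlinarith
      · have hE : 0 < t * s := by nlinarith [sq_nonneg (c - β), sq_nonneg β]
        rcases pos_and_pos_or_neg_and_neg_of_mul_pos hE with ⟨ht, hs⟩ | ⟨ht, hs⟩
        · -- both positive
          have h5 : (β - t) * (3 * c - β) < (3 * β - c) * (c - β) := by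
            have h6 : t * s ≤ t * (3 * c - β) :=
              mul_le_mul_of_nonneg_left (by linarith) ht.le
            nlinarith
          have h6 : (β - t) * (2 * c) ≤ (β - t) * (3 * c - β) :=
            mul_le_mul_of_nonneg_left (by linarith) hb
          have h7 : (3 * β - c) * (c - β) ≤ (2 * β) * (1 / 20 * c) :=
            mul_le_mul (by linarith) (by linarith) (by linarith) (by linarith)
          have h8 : 20 * (β - t) ≤ β := by
            have hc0 : 0 < c := by linarith
            by_contra hh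
            push Not at hh
            nlinarith
          have h9 : 3 * (β - t) ≤ β + t := by linarith
          have h10 : 6 * (β + t) * q - 3 * q ^ 2 ≤ 18 * (β + t) * (β - t) - 27 * (β - t) ^ 2 := by
            nlinarith [mul_nonneg (sub_nonneg.2 hq2)
              (by linarith : (0 : ℝ) ≤ 2 * (β + t) - q - 3 * (β - t))]
          have h11 : 2 * β * (β - t) ≤ (c - β) * (c + 3 * β) := by
            have h12 : 2 * β * ((β - t) * (3 * c - β)) ≤ 2 * β * ((3 * β - c) * (c - β)) :=
              mul_le_mul_of_nonneg_left h5.le (by linarith)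
            have h13 : 2 * β * (3 * β - c) ≤ (c + 3 * β) * (3 * c - β) := by nlinarith
            have h14 : 2 * β * (3 * β - c) * (c - β) ≤ (c + 3 * β) * (3 * c - β) * (c - β) :=
              mul_le_mul_of_nonneg_right h13 (by linarith)
            by_contra hh
            push Not at hh
            have h15 : (c - β) * (c + 3 * β) * (3 * c - β) < 2 * β * (β - t) * (3 * c - β) :=
              mul_lt_mul_of_pos_right hh (by linarith)
            linarith
          have h16 : 6 * (β + t) ^ 2 + 6 * (β + t) * q - 3 * q ^ 2 + 9 * (β - t) ^ 2 -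
              6 * (c + β) ^ 2 ≤ - (30 * (β - t) ^ 2) := by
            have e : 6 * (β + t) ^ 2 + (18 * (β + t) * (β - t) - 27 * (β - t) ^ 2) +
                9 * (β - t) ^ 2 - 6 * (c + β) ^ 2 =
                6 * (2 * β * (β - t) - (c - β) * (c + 3 * β)) - 30 * (β - t) ^ 2 := by ring
            linarith
          linarith [sq_nonneg (β - t)]
        · -- both negative
          have h5 : β + t ≤ β - t := by linarith
          have h6 : 6 * (β + t) * q - 3 * q ^ 2 + 9 * (β - t) ^ 2 ≤ 21 / 2 * (β + t) * (β - t) := by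
            rcases eq_or_lt_of_le hb with h7 | h7
            · rw [← h7] at hq1 hq2 ⊢
              have : q = 0 := by linarith
              rw [this]
              simp
            · have h8 : (β - t) * q ≤ 2 / 7 * (q ^ 2 + 49 / 16 * (β - t) ^ 2) := by
                nlinarith [sq_nonneg (q - 7 / 4 * (β - t))]
              have h9 : (β + t) * ((β - t) * q) ≤
                  (β + t) * (2 / 7 * (q ^ 2 + 49 / 16 * (β - t) ^ 2)) :=
                mul_le_mul_of_nonneg_left h8 ha
              have h10 : (β + t) * (q ^ 2 - 3 * (β - t) ^ 2) ≤ (β - t) * (q ^ 2 - 3 * (β - t) ^ 2) :=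
                mul_le_mul_of_nonneg_right h5 (by linarith)
              have h11 : 0 ≤ (β - t) * (q ^ 2 - 3 * (β - t) ^ 2) :=
                mul_nonneg hb (by linarith)
              by_contra hh
              push Not at hh
              have h12 := mul_lt_mul_of_pos_left hh h7
              have h13 : 0 ≤ (β + t) * (β - t) ^ 2 := mul_nonneg ha (sq_nonneg _)
              linarith
          have h17 : 0 ≤ (β + t) * (- t) := mul_nonneg ha (by linarith)
          have h18 : 0 ≤ (c - β) * (c + 3 * β) := mul_nonneg (by linarith) (by linarith)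
          linarith [sq_nonneg t, sq_nonneg β]

end Pool.Agent.Run7.h82.BM
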