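import Pool.Agent.W975.HD.THO
import Pool.Agent.Run7.h82.BM.Two

/-!
# Curvature tensors in dimension four: Euler form, Pontryagin form and the block decomposition
-/

set_option autoImplicit false

namespace Pool.Agent.Run7.h82.BM

open Finset

/-- components of an algebraic curvature tensor -/
structure Arr (K : Fin 4 → Fin 4 → Fin 4 → Fin 4 → ℝ) : Prop where
  anti : ∀ i j k l, K j i k l = - K i j k l
  pair : ∀ i j k l, K k l i j = K i j k l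
  bianchi : ∀ i j k l, K i j k l + K j k i l + K k i j l = 0

/-- coefficient of the wedge product of two two-forms on `ℝ⁴` -/
def wdg (a b : Fin 4 → Fin 4 → ℝ) : ℝ :=
  a 0 1 * b 2 3 - a 0 2 * b 1 3 + a 0 3 * b 1 2 + a 1 2 * b 0 3 - a 1 3 * b 0 2 + a 2 3 * b 0 1

/-- the Pfaffian of the curvature two-forms `K i j` -/
def eulA (K : Fin 4 → Fin 4 → Fin 4 → Fin 4 → ℝ) : ℝ :=
  wdg (K 0 1) (K 2 3) - wdg (K 0 2) (K 1 3) + wdg (K 0 3) (K 1 2)

/-- the sum of the squares of the curvature two-forms `K i j`, `i < j` -/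
def ponA (K : Fin 4 → Fin 4 → Fin 4 → Fin 4 → ℝ) : ℝ :=
  wdg (K 0 1) (K 0 1) + wdg (K 0 2) (K 0 2) + wdg (K 0 3) (K 0 3) + wdg (K 1 2) (K 1 2) +
    wdg (K 1 3) (K 1 3) + wdg (K 2 3) (K 2 3)

/-- scalar curvature -/
def sclA (K : Fin 4 → Fin 4 → Fin 4 → Fin 4 → ℝ) : ℝ := ∑ i, ∑ j, K i j i j

/-- the value on four vectors -/
def val (K : Fin 4 → Fin 4 → Fin 4 → Fin 4 → ℝ) (a b : Fin 4 → ℝ) : ℝ :=
  ∑ i, ∑ j, ∑ k, ∑ l, K i j k l * (a i * b j * a k * b l)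

/-- first indices of the pairs `01, 02, 03` -/
def f1 (k : Fin 3) : Fin 4 := (![0, 0, 0] : Fin 3 → Fin 4) k
/-- second indices of the pairs `01, 02, 03` -/
def s1 (k : Fin 3) : Fin 4 := (![1, 2, 3] : Fin 3 → Fin 4) k
/-- first indices of the pairs `23, 31, 12` -/
def f2 (k : Fin 3) : Fin 4 := (![2, 3, 1] : Fin 3 → Fin 4) k
/-- second indices of the pairs `23, 31, 12` -/
def s2 (k : Fin 3) : Fin 4 := (![3, 1, 2] : Fin 3 → Fin 4) k

variable {K : Fin 4 → Fin 4 → Fin 4 → Fin 4 → ℝ}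

/-- the self-dual block -/
noncomputable def Am (K : Fin 4 → Fin 4 → Fin 4 → Fin 4 → ℝ) (k l : Fin 3) : ℝ :=
  1 / 2 * (K (f1 k) (s1 k) (f1 l) (s1 l) + K (f1 k) (s1 k) (f2 l) (s2 l) +
    K (f2 k) (s2 k) (f1 l) (s1 l) + K (f2 k) (s2 k) (f2 l) (s2 l))

/-- the anti-self-dual block -/
noncomputable def Dm (K : Fin 4 → Fin 4 → Fin 4 → Fin 4 → ℝ) (k l : Fin 3) : ℝ :=
  1 / 2 * (K (f1 k) (s1 k) (f1 l) (s1 l) - K (f1 k) (s1 k) (f2 l) (s2 l) -
    K (f2 k) (s2 k) (f1 l) (s1 l) + K (f2 k) (s2 k) (f2 l) (s2 l))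

/-- the mixed block -/
noncomputable def Bm (K : Fin 4 → Fin 4 → Fin 4 → Fin 4 → ℝ) (k l : Fin 3) : ℝ :=
  1 / 2 * (K (f1 k) (s1 k) (f1 l) (s1 l) - K (f1 k) (s1 k) (f2 l) (s2 l) +
    K (f2 k) (s2 k) (f1 l) (s1 l) - K (f2 k) (s2 k) (f2 l) (s2 l))

theorem Arr.anti2 (h : Arr K) (i j k l : Fin 4) : K i j l k = - K i j k l := by
  rw [← h.pair i j l k, ← h.pair i j k l]
  exact h.anti k l i j

theorem Arr.zz (h : Arr K) (i k l : Fin 4) : K i i k l = 0 := by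
  have := h.anti i i k l
  linarith

theorem Arr.zz2 (h : Arr K) (i j k : Fin 4) : K i j k k = 0 := by
  have := h.anti2 i j k k
  linarith

/-- sums over a symmetric function of two indices -/
theorem sum_pairs (f : Fin 4 → Fin 4 → ℝ) (hs : ∀ i j, f j i = f i j) (hd : ∀ i, f i i = 0) :
    ∑ i, ∑ j, f i j = 2 * ∑ k, (f (f1 k) (s1 k) + f (f2 k) (s2 k)) := by
  simp only [Fin.sum_univ_four, Fin.sum_univ_three, f1, s1, f2, s2, hd]
  simp only [Matrix.cons_val_zero, Matrix.cons_val_one, Matrix.cons_val]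
  rw [hs 0 1, hs 0 2, hs 0 3, hs 1 2, hs 1 3, hs 2 3]
  ring

/-- the two-form with self-dual part `α` and anti-self-dual part `γ` -/
def frm (α γ : Fin 3 → ℝ) : Fin 4 → Fin 4 → ℝ := fun i j =>
  (![![0, α 0 + γ 0, α 1 + γ 1, α 2 + γ 2],
    ![-(α 0 + γ 0), 0, α 2 - γ 2, -(α 1 - γ 1)],
    ![-(α 1 + γ 1), -(α 2 - γ 2), 0, α 0 - γ 0],
    ![-(α 2 + γ 2), α 1 - γ 1, -(α 0 - γ 0), 0]] : Fin 4 → Fin 4 → ℝ) i j

theorem frm_anti (α γ : Fin 3 → ℝ) (i j : Fin 4) : frm α γ j i = - frm α γ i j := by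
  unfold frm
  fin_cases i <;> fin_cases j <;> simp

theorem frm1 (α γ : Fin 3 → ℝ) (k : Fin 3) : frm α γ (f1 k) (s1 k) = α k + γ k := by
  fin_cases k <;> simp [frm, f1, s1]

theorem frm2 (α γ : Fin 3 → ℝ) (k : Fin 3) : frm α γ (f2 k) (s2 k) = α k - γ k := by
  fin_cases k <;> simp [frm, f2, s2]

theorem quad_frm (h : Arr K) (α γ : Fin 3 → ℝ) :
    ∑ i, ∑ j, ∑ k, ∑ l, K i j k l * (frm α γ i j * frm α γ k l) =
      8 * ((∑ i, ∑ j, Am K i j * (α i * α j)) + 2 * (∑ i, ∑ j, Bm K i j * (α i * γ j)) +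
        ∑ i, ∑ j, Dm K i j * (γ i * γ j)) := by
  have hx := frm_anti α γ
  have hxd : ∀ i, frm α γ i i = 0 := fun i => by have := hx i i; linarith
  have h1 : ∀ i j, ∑ k, ∑ l, K i j k l * (frm α γ i j * frm α γ k l) =
      2 * ∑ l, (K i j (f1 l) (s1 l) * (frm α γ i j * (α l + γ l)) +
        K i j (f2 l) (s2 l) * (frm α γ i j * (α l - γ l))) := by
    intro i j
    rw [sum_pairs (fun k l => K i j k l * (frm α γ i j * frm α γ k l))
      (fun k l => by rw [h.anti2 i j k l, hx k l]; ring) (fun k => by rw [hxd]; ring)]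
    simp only [frm1, frm2]
  simp only [h1]
  rw [sum_pairs (fun i j => 2 * ∑ l, (K i j (f1 l) (s1 l) * (frm α γ i j * (α l + γ l)) +
        K i j (f2 l) (s2 l) * (frm α γ i j * (α l - γ l))))
      (fun i j => by
        congr 1
        refine sum_congr rfl fun l _ => ?_
        rw [h.anti i j, h.anti i j, hx i j]; ring)
      (fun i => by simp [hxd])]
  simp only [frm1, frm2]
  have hp : ∀ k l : Fin 3, K (f2 k) (s2 k) (f1 l) (s1 l) = K (f1 l) (s1 l) (f2 k) (s2 k) :=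
    fun k l => h.pair _ _ _ _
  simp only [Am, Bm, Dm, hp, Fin.sum_univ_three]
  rw [h.pair (f1 0) (s1 0) (f1 1) (s1 1), h.pair (f1 0) (s1 0) (f1 2) (s1 2),
    h.pair (f1 1) (s1 1) (f1 2) (s1 2), h.pair (f2 0) (s2 0) (f2 1) (s2 1),
    h.pair (f2 0) (s2 0) (f2 2) (s2 2), h.pair (f2 1) (s2 1) (f2 2) (s2 2)]
  ring

theorem pf_frm (α γ : Fin 3 → ℝ) :
    Pool.Agent.W975.HD.pf (frm α γ) = (∑ i, α i ^ 2) - ∑ i, γ i ^ 2 := by
  simp only [Pool.Agent.W975.HD.pf, frm, Fin.sum_univ_three]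
  simp
  ring

theorem Am_symm (h : Arr K) (i j : Fin 3) : Am K j i = Am K i j := by
  unfold Am
  rw [h.pair (f1 i) (s1 i) (f1 j) (s1 j), h.pair (f2 i) (s2 i) (f1 j) (s1 j),
    h.pair (f1 i) (s1 i) (f2 j) (s2 j), h.pair (f2 i) (s2 i) (f2 j) (s2 j)]
  ring

theorem Dm_symm (h : Arr K) (i j : Fin 3) : Dm K j i = Dm K i j := by
  unfold Dm
  rw [h.pair (f1 i) (s1 i) (f1 j) (s1 j), h.pair (f2 i) (s2 i) (f1 j) (s1 j),
    h.pair (f1 i) (s1 i) (f2 j) (s2 j), h.pair (f2 i) (s2 i) (f2 j) (s2 j)]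
  ring

/-- Thorpe's lemma in block form -/
theorem thorpe (h : Arr K) (hv : ∀ a b, 0 ≤ val K a b) :
    ∃ t : ℝ, Blk (fun i j => Am K i j + t * dl i j) (fun i j => Dm K i j - t * dl i j) (Bm K) := by
  obtain ⟨t, ht⟩ := Pool.Agent.W975.HD.tho K h.anti h.pair hv
  refine ⟨t, ⟨fun i j => ?_, fun i j => ?_, fun α γ => ?_⟩⟩
  · simp only [Am_symm h i j, dl, eq_comm]
  · simp only [Dm_symm h i j, dl, eq_comm]
  · have h1 := ht (frm α γ) (frm_anti α γ)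
    have e : ∑ i, ∑ j, ∑ k, ∑ l, (K i j k l + t * Pool.Agent.W669.HD.eps i j k l) *
        (frm α γ i j * frm α γ k l) =
        (∑ i, ∑ j, ∑ k, ∑ l, K i j k l * (frm α γ i j * frm α γ k l)) +
        t * ∑ i, ∑ j, ∑ k, ∑ l, Pool.Agent.W669.HD.eps i j k l * (frm α γ i j * frm α γ k l) := by
      simp only [mul_sum, ← sum_add_distrib]
      refine sum_congr rfl fun i _ => sum_congr rfl fun j _ => sum_congr rfl fun k _ =>
        sum_congr rfl fun l _ => ?_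
      ring
    rw [e, Pool.Agent.W975.HD.q_eq (frm α γ) (frm_anti α γ), pf_frm, quad_frm h] at h1
    have e2 : (∑ i, ∑ j, (Am K i j + t * dl i j) * (α i * α j)) +
        2 * (∑ i, ∑ j, Bm K i j * (α i * γ j)) +
        ∑ i, ∑ j, (Dm K i j - t * dl i j) * (γ i * γ j) =
        (∑ i, ∑ j, Am K i j * (α i * α j)) + 2 * (∑ i, ∑ j, Bm K i j * (α i * γ j)) +
        (∑ i, ∑ j, Dm K i j * (γ i * γ j)) + t * ((∑ i, α i ^ 2) - ∑ i, γ i ^ 2) := by
      simp only [Fin.sum_univ_three, dl]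
      simp
      ring
    rw [e2]
    linarith

/-- components of the tensor of constant curvature one -/
def unit4 (i j k l : Fin 4) : ℝ :=
  (if i = k then 1 else 0) * (if j = l then 1 else 0) -
    (if i = l then 1 else 0) * (if j = k then 1 else 0)

theorem Am_unit (c : ℝ) (K : Fin 4 → Fin 4 → Fin 4 → Fin 4 → ℝ) (i j : Fin 3) :
    Am (fun a b e f => K a b e f + c * unit4 a b e f) i j = Am K i j + c * dl i j := by
  simp only [Am, dl, unit4]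
  fin_cases i <;> fin_cases j <;> simp [f1, s1, f2, s2] <;> ring

theorem Dm_unit (c : ℝ) (K : Fin 4 → Fin 4 → Fin 4 → Fin 4 → ℝ) (i j : Fin 3) :
    Dm (fun a b e f => K a b e f + c * unit4 a b e f) i j = Dm K i j + c * dl i j := by
  simp only [Dm, dl, unit4]
  fin_cases i <;> fin_cases j <;> simp [f1, s1, f2, s2] <;> ring

theorem Bm_unit (c : ℝ) (K : Fin 4 → Fin 4 → Fin 4 → Fin 4 → ℝ) (i j : Fin 3) :
    Bm (fun a b e f => K a b e f + c * unit4 a b e f) i j = Bm K i j := by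
  simp only [Bm, unit4]
  fin_cases i <;> fin_cases j <;> simp [f1, s1, f2, s2] <;> ring

theorem tr_Am (h : Arr K) : tr (Am K) = sclA K / 4 := by
  have hb := h.bianchi 0 1 2 3
  have e1 := h.pair 0 3 1 2
  have e2 := h.anti 0 2 1 3
  have e3 := h.anti2 0 2 1 3
  have e4 := h.pair 0 1 2 3
  have e5 := h.pair 0 2 3 1
  simp only [tr, Am, sclA, Fin.sum_univ_three, Fin.sum_univ_four, f1, s1, f2, s2]
  simp only [Matrix.cons_val_zero, Matrix.cons_val_one, Matrix.cons_val]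
  simp only [h.zz]
  rw [h.anti 0 1 1 0, h.anti 0 2 2 0, h.anti 0 3 3 0, h.anti 1 2 2 1, h.anti 1 3 3 1,
    h.anti 2 3 3 2, h.anti2 0 1 0 1, h.anti2 0 2 0 2, h.anti2 0 3 0 3, h.anti2 1 2 1 2,
    h.anti2 1 3 1 3, h.anti2 2 3 2 3]
  linear_combination hb + (1 / 2) * e4 + (1 / 2) * e5 - (1 / 2) * e1 + e3 - e2

theorem tr_Dm (h : Arr K) : tr (Dm K) = sclA K / 4 := by
  have hb := h.bianchi 0 1 2 3
  have e1 := h.pair 0 3 1 2
  have e2 := h.anti 0 2 1 3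
  have e3 := h.anti2 0 2 1 3
  have e4 := h.pair 0 1 2 3
  have e5 := h.pair 0 2 3 1
  simp only [tr, Dm, sclA, Fin.sum_univ_three, Fin.sum_univ_four, f1, s1, f2, s2]
  simp only [Matrix.cons_val_zero, Matrix.cons_val_one, Matrix.cons_val]
  simp only [h.zz]
  rw [h.anti 0 1 1 0, h.anti 0 2 2 0, h.anti 0 3 3 0, h.anti 1 2 2 1, h.anti 1 3 3 1,
    h.anti 2 3 3 2, h.anti2 0 1 0 1, h.anti2 0 2 0 2, h.anti2 0 3 0 3, h.anti2 1 2 1 2,
    h.anti2 1 3 1 3, h.anti2 2 3 2 3]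
  linear_combination -hb - (1 / 2) * e4 - (1 / 2) * e5 + (1 / 2) * e1 - e3 + e2

theorem eul_pon (h : Arr K) :
    2 * eulA K = nn (Am K) + nn (Dm K) - 2 * nn (Bm K) ∧ ponA K = nn (Am K) - nn (Dm K) := by
  have a13 : ∀ k l, K 1 3 k l = - K 3 1 k l := fun k l => h.anti 3 1 k l
  have b13 : ∀ i j, K i j 1 3 = - K i j 3 1 := fun i j => h.anti2 i j 3 1
  constructor
  · simp only [nn, Am, Dm, Bm, eulA, wdg, Fin.sum_univ_three, f1, s1, f2, s2]
    simp only [Matrix.cons_val_zero, Matrix.cons_val_one, Matrix.cons_val]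
    simp only [a13, b13]
    rw [h.pair 0 1 0 2, h.pair 0 1 0 3, h.pair 0 2 0 3, h.pair 0 1 2 3, h.pair 0 2 2 3,
      h.pair 0 3 2 3, h.pair 0 1 3 1, h.pair 0 2 3 1, h.pair 0 3 3 1, h.pair 2 3 3 1,
      h.pair 0 1 1 2, h.pair 0 2 1 2, h.pair 0 3 1 2, h.pair 2 3 1 2, h.pair 3 1 1 2]
    ring
  · simp only [nn, Am, Dm, ponA, wdg, Fin.sum_univ_three, f1, s1, f2, s2]
    simp only [Matrix.cons_val_zero, Matrix.cons_val_one, Matrix.cons_val]
    simp only [a13, b13]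
    rw [h.pair 0 1 0 2, h.pair 0 1 0 3, h.pair 0 2 0 3, h.pair 0 1 2 3, h.pair 0 2 2 3,
      h.pair 0 3 2 3, h.pair 0 1 3 1, h.pair 0 2 3 1, h.pair 0 3 3 1, h.pair 2 3 3 1,
      h.pair 0 1 1 2, h.pair 0 2 1 2, h.pair 0 3 1 2, h.pair 2 3 1 2, h.pair 3 1 1 2]
    ring

end Pool.Agent.Run7.h82.BM
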