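import Pool.Agent.Run7.h82.BM.Geo

/-!
# The inequality between the Pontryagin and the Euler form under negative curvature conditions
-/

set_option autoImplicit false

namespace Pool.Agent.Run7.h82.BM

open Finset
open Pool.Agent.W666.GB (AlgCurv)

section arr

variable {K : Fin 4 → Fin 4 → Fin 4 → Fin 4 → ℝ}

/-- the Gram determinant -/
def gram (a b : Fin 4 → ℝ) : ℝ := (∑ i, a i ^ 2) * (∑ i, b i ^ 2) - (∑ i, a i * b i) ^ 2

theorem val_unit (a b : Fin 4 → ℝ) : val unit4 a b = gram a b := by
  simp only [val, unit4, gram, Fin.sum_univ_four]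
  simp
  ring

theorem val_lin (x y : ℝ) (a b : Fin 4 → ℝ) :
    val (fun i j k l => x * K i j k l + y * unit4 i j k l) a b = x * val K a b + y * gram a b := by
  rw [← val_unit]
  simp only [val, mul_sum, ← sum_add_distrib]
  refine sum_congr rfl fun i _ => sum_congr rfl fun j _ => sum_congr rfl fun k _ =>
    sum_congr rfl fun l _ => ?_
  ring

theorem unit4_arr : Arr unit4 := by
  refine ⟨fun i j k l => ?_, fun i j k l => ?_, fun i j k l => ?_⟩
  · unfold unit4; ring
  · unfold unit4
    simp only [eq_comm (a := k) (b := i), eq_comm (a := l) (b := j), eq_comm (a := k) (b := j),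
      eq_comm (a := l) (b := i)]
    ring
  · unfold unit4
    simp only [eq_comm (a := k) (b := i), eq_comm (a := k) (b := j), eq_comm (a := j) (b := i)]
    ring

theorem lin_arr (h : Arr K) (x y : ℝ) : Arr (fun i j k l => x * K i j k l + y * unit4 i j k l) := by
  refine ⟨fun i j k l => ?_, fun i j k l => ?_, fun i j k l => ?_⟩
  · show _ = -_
    rw [h.anti i j k l, unit4_arr.anti i j k l]; ring
  · show _ = _
    rw [h.pair i j k l, unit4_arr.pair i j k l]
  · have h1 := h.bianchi i j k l
    have h2 := unit4_arr.bianchi i j k l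
    linear_combination x * h1 + y * h2

theorem Am_lin (x y : ℝ) (i j : Fin 3) :
    Am (fun a b e f => x * K a b e f + y * unit4 a b e f) i j = x * Am K i j + y * dl i j := by
  rw [Am_unit y (fun a b e f => x * K a b e f)]
  unfold Am
  ring

theorem Dm_lin (x y : ℝ) (i j : Fin 3) :
    Dm (fun a b e f => x * K a b e f + y * unit4 a b e f) i j = x * Dm K i j + y * dl i j := by
  rw [Dm_unit y (fun a b e f => x * K a b e f)]
  unfold Dm
  ring

theorem Bm_lin (x y : ℝ) (i j : Fin 3) :
    Bm (fun a b e f => x * K a b e f + y * unit4 a b e f) i j = x * Bm K i j := by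
  rw [Bm_unit y (fun a b e f => x * K a b e f)]
  unfold Bm
  ring

/-- block form of `K ≥ c` -/
theorem blk_lower (h : Arr K) {c : ℝ} (hv : ∀ a b, c * gram a b ≤ val K a b) :
    ∃ t : ℝ, Blk (fun i j => Am K i j - (c - t) * dl i j) (fun i j => Dm K i j - (c + t) * dl i j)
      (Bm K) := by
  obtain ⟨t, ht⟩ := thorpe (lin_arr h 1 (-c)) (fun a b => by
    rw [val_lin]
    have := hv a b
    linarith)
  refine ⟨t, ?_⟩
  have e1 : (fun i j => Am (fun a b e f => 1 * K a b e f + -c * unit4 a b e f) i j + t * dl i j) =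
      fun i j => Am K i j - (c - t) * dl i j := by
    funext i j
    rw [Am_lin]; ring
  have e2 : (fun i j => Dm (fun a b e f => 1 * K a b e f + -c * unit4 a b e f) i j - t * dl i j) =
      fun i j => Dm K i j - (c + t) * dl i j := by
    funext i j
    rw [Dm_lin]; ring
  have e3 : (Bm fun a b e f => 1 * K a b e f + -c * unit4 a b e f) = Bm K := by
    funext i j
    rw [Bm_lin]; ring
  rw [e1, e2, e3] at ht
  exact ht

/-- block form of `K ≤ b` -/
theorem blk_upper (h : Arr K) {b : ℝ} (hv : ∀ x y, val K x y ≤ b * gram x y) :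
    ∃ s : ℝ, Blk (fun i j => (b + s) * dl i j - Am K i j) (fun i j => (b - s) * dl i j - Dm K i j)
      (fun i j => - Bm K i j) := by
  obtain ⟨t, ht⟩ := thorpe (lin_arr h (-1) b) (fun x y => by
    rw [val_lin]
    have := hv x y
    linarith)
  refine ⟨t, ?_⟩
  have e1 : (fun i j => Am (fun x y e f => -1 * K x y e f + b * unit4 x y e f) i j + t * dl i j) =
      fun i j => (b + t) * dl i j - Am K i j := by
    funext i j
    rw [Am_lin]; ring
  have e2 : (fun i j => Dm (fun x y e f => -1 * K x y e f + b * unit4 x y e f) i j - t * dl i j) =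
      fun i j => (b - t) * dl i j - Dm K i j := by
    funext i j
    rw [Dm_lin]; ring
  have e3 : (Bm fun x y e f => -1 * K x y e f + b * unit4 x y e f) = fun i j => - Bm K i j := by
    funext i j
    rw [Bm_lin]; ring
  rw [e1, e2, e3] at ht
  exact ht

theorem nn_transpose (B : Fin 3 → Fin 3 → ℝ) : nn (fun i j => B j i) = nn B := sum_comm

/-- the sharp inequality for components -/
theorem arr_mean (h : Arr K) {c : ℝ} (hv : ∀ a b, c * gram a b ≤ val K a b) :
    3 * (sclA K / 12) ^ 2 - 63 / 5 * (sclA K / 12 - c) ^ 2 ≤ eulA K - |ponA K| := by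
  obtain ⟨t, ht⟩ := blk_lower h hv
  obtain ⟨e1, e2⟩ := eul_pon h
  have hA : tr (Am K) = 3 * (sclA K / 12) := by rw [tr_Am h]; ring
  have hD : tr (Dm K) = 3 * (sclA K / 12) := by rw [tr_Dm h]; ring
  have h1 := mean_ineq hA hD ht
  have ht' : Blk (fun i j => Dm K i j - (c - -t) * dl i j) (fun i j => Am K i j - (c + -t) * dl i j)
      (fun i j => Bm K j i) := by
    have := ht.swap
    simpa [sub_neg_eq_add, ← sub_eq_add_neg] using this
  have h2 := mean_ineq hD hA ht'
  rw [nn_transpose (Bm K)] at h2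
  have h3 : |ponA K| ≤ eulA K - (3 * (sclA K / 12) ^ 2 - 63 / 5 * (sclA K / 12 - c) ^ 2) := by
    rw [abs_le]
    constructor <;> linarith
  linarith

/-- quarter pinching for components -/
theorem arr_quarter (h : Arr K) {c : ℝ} (hc : 0 ≤ c) (hv : ∀ a b, c * gram a b ≤ val K a b)
    (hv' : ∀ a b, val K a b ≤ 4 * c * gram a b) : |ponA K| ≤ eulA K := by
  obtain ⟨t, ht⟩ := blk_lower h hv
  obtain ⟨s, hs⟩ := blk_upper h hv'
  obtain ⟨e1, e2⟩ := eul_pon h
  have hA : tr (Am K) = 3 * (sclA K / 12) := by rw [tr_Am h]; ring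
  have hD : tr (Dm K) = 3 * (sclA K / 12) := by rw [tr_Dm h]; ring
  have h1 := ville hc hA hD ht hs
  have ht' : Blk (fun i j => Dm K i j - (c - -t) * dl i j) (fun i j => Am K i j - (c + -t) * dl i j)
      (fun i j => Bm K j i) := by
    have := ht.swap
    simpa [sub_neg_eq_add, ← sub_eq_add_neg] using this
  have hs' : Blk (fun i j => (4 * c + -s) * dl i j - Dm K i j)
      (fun i j => (4 * c - -s) * dl i j - Am K i j) (fun i j => - Bm K j i) := by
    have := hs.swap
    simpa [sub_neg_eq_add, ← sub_eq_add_neg] using this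
  have h2 := ville hc hD hA ht' hs'
  rw [nn_transpose (Bm K)] at h2
  rw [abs_le]
  constructor <;> linarith

end arr

end Pool.Agent.Run7.h82.BM
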