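import Pool.Agent.Run7.h82.BM.Pt

/-!
# Curvature tensors on a Euclidean four-space
-/

set_option autoImplicit false

namespace Pool.Agent.Run7.h82.BM

open Finset
open Pool.Agent.W666.GB (AlgCurv)

variable {V : Type*} [NormedAddCommGroup V] [InnerProductSpace ℝ V]

/-- all sectional curvatures are at most `b` -/
def SecLe (R : V → V → V → V → ℝ) (b : ℝ) : Prop :=
  ∀ x y : V, ‖x‖ = 1 → ‖y‖ = 1 → inner ℝ x y = 0 → R x y x y ≤ b

/-- all sectional curvatures are at least `a` -/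
def SecGe (R : V → V → V → V → ℝ) (a : ℝ) : Prop :=
  ∀ x y : V, ‖x‖ = 1 → ‖y‖ = 1 → inner ℝ x y = 0 → a ≤ R x y x y

/-- components in an orthonormal basis -/
noncomputable def cmp (e : OrthonormalBasis (Fin 4) ℝ V) (R : V → V → V → V → ℝ) (i j k l : Fin 4) : ℝ :=
  R (e i) (e j) (e k) (e l)

/-- the Euler form -/
noncomputable def eul (e : OrthonormalBasis (Fin 4) ℝ V) (R : V → V → V → V → ℝ) : ℝ :=
  eulA (cmp e R)

/-- the Pontryagin form -/
noncomputable def pon (e : OrthonormalBasis (Fin 4) ℝ V) (R : V → V → V → V → ℝ) : ℝ :=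
  ponA (cmp e R)

/-- scalar curvature -/
noncomputable def scal (e : OrthonormalBasis (Fin 4) ℝ V) (R : V → V → V → V → ℝ) : ℝ :=
  sclA (cmp e R)

variable {R : V → V → V → V → ℝ} (e : OrthonormalBasis (Fin 4) ℝ V)

theorem neg_curv (h : AlgCurv R) : AlgCurv (fun x y z w => - R x y z w) where
  add x x' y z w := by rw [h.add]; ring
  smul t x y z w := by rw [h.smul]; ring
  anti x y z w := by rw [h.anti]
  pair x y z w := by rw [h.pair]
  bianchi x y z w := by have := h.bianchi x y z w; linarith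

theorem cmp_arr (h : AlgCurv R) : Arr (cmp e R) :=
  ⟨fun _ _ _ _ => h.anti _ _ _ _, fun _ _ _ _ => h.pair _ _ _ _, fun _ _ _ _ => h.bianchi _ _ _ _⟩

theorem smul_zero4 (h : AlgCurv R) (y z w : V) : R 0 y z w = 0 := by
  have := h.smul 0 0 y z w
  rw [zero_smul, zero_mul] at this
  exact this

/-- sectional curvature bound for arbitrary pairs -/
theorem sec_any (h : AlgCurv R) {b : ℝ} (hs : SecLe R b) (x y : V) :
    R x y x y ≤ b * (‖x‖ ^ 2 * ‖y‖ ^ 2 - inner ℝ x y ^ 2) := by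
  by_cases hx : x = 0
  · rw [hx, smul_zero4 h]
    simp
  have hx0 : 0 < ‖x‖ := norm_pos_iff.mpr hx
  set c : ℝ := inner ℝ x y / ‖x‖ ^ 2 with hc
  set y' := y - c • x with hy'
  have hS : R x y x y = R x y' x y' := by
    simp only [hy', h.sub2, h.sub4, h.smul2, h.smul4, h.self12, h.self34]
    ring
  have horth : inner ℝ x y' = 0 := by
    rw [hy', inner_sub_right, inner_smul_right, real_inner_self_eq_norm_sq, hc]
    field_simp
    ring
  have hnorm : ‖x‖ ^ 2 * ‖y‖ ^ 2 - inner ℝ x y ^ 2 = ‖x‖ ^ 2 * ‖y'‖ ^ 2 := by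
    have h2 : y = y' + c • x := by rw [hy']; abel
    have h3 : ‖y‖ ^ 2 = ‖y'‖ ^ 2 + ‖c • x‖ ^ 2 := by
      rw [h2, norm_add_sq_real, inner_smul_right, real_inner_comm, horth]
      ring
    rw [h3, norm_smul, mul_pow, Real.norm_eq_abs, sq_abs, hc]
    field_simp
    ring
  rw [hS, hnorm]
  by_cases hy0 : y' = 0
  · rw [hy0]
    have : R x 0 x 0 = 0 := by rw [h.anti 0 x, smul_zero4 h]; simp
    rw [this]
    simp
  have hy1 : 0 < ‖y'‖ := norm_pos_iff.mpr hy0
  have h1 := hs (‖x‖⁻¹ • x) (‖y'‖⁻¹ • y') (by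
      rw [norm_smul, norm_inv, norm_norm]; exact inv_mul_cancel₀ hx0.ne')
    (by rw [norm_smul, norm_inv, norm_norm]; exact inv_mul_cancel₀ hy1.ne')
    (by rw [inner_smul_left, inner_smul_right, horth]; simp)
  rw [h.smul, h.smul2, h.smul3, h.smul4] at h1
  have h4 : ‖x‖⁻¹ * (‖y'‖⁻¹ * (‖x‖⁻¹ * (‖y'‖⁻¹ * R x y' x y'))) =
      R x y' x y' / (‖x‖ ^ 2 * ‖y'‖ ^ 2) := by
    field_simp
  rw [h4, div_le_iff₀ (by positivity)] at h1
  exact h1

theorem sum1 (h : AlgCurv R) (a : Fin 4 → ℝ) (y z w : V) :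
    R (∑ i, a i • e i) y z w = ∑ i, a i * R (e i) y z w := by
  simp only [Fin.sum_univ_four, h.add, h.smul]

theorem sum2 (h : AlgCurv R) (a : Fin 4 → ℝ) (x z w : V) :
    R x (∑ i, a i • e i) z w = ∑ i, a i * R x (e i) z w := by
  simp only [Fin.sum_univ_four, h.add2, h.smul2]

theorem sum3 (h : AlgCurv R) (a : Fin 4 → ℝ) (x y w : V) :
    R x y (∑ i, a i • e i) w = ∑ i, a i * R x y (e i) w := by
  simp only [Fin.sum_univ_four, h.add3, h.smul3]

theorem sum4 (h : AlgCurv R) (a : Fin 4 → ℝ) (x y z : V) :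
    R x y z (∑ i, a i • e i) = ∑ i, a i * R x y z (e i) := by
  simp only [Fin.sum_univ_four, h.add4, h.smul4]

theorem val_cmp (h : AlgCurv R) (a b : Fin 4 → ℝ) :
    val (cmp e R) a b = R (∑ i, a i • e i) (∑ i, b i • e i) (∑ i, a i • e i) (∑ i, b i • e i) := by
  rw [sum1 e h, val]
  refine sum_congr rfl fun i _ => ?_
  rw [sum2 e h, mul_sum]
  refine sum_congr rfl fun j _ => ?_
  rw [sum3 e h, mul_sum, mul_sum]
  refine sum_congr rfl fun k _ => ?_
  rw [sum4 e h, mul_sum, mul_sum, mul_sum]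
  refine sum_congr rfl fun l _ => ?_
  unfold cmp
  ring

theorem inner_sum (a b : Fin 4 → ℝ) :
    inner ℝ (∑ i, a i • e i) (∑ i, b i • e i) = ∑ i, a i * b i := by
  have hi : ∀ i j, inner ℝ (e i) (e j) = if i = j then (1 : ℝ) else 0 :=
    orthonormal_iff_ite.1 e.orthonormal
  rw [_root_.sum_inner]
  refine sum_congr rfl fun i _ => ?_
  rw [_root_.inner_sum]
  simp only [inner_smul_left, inner_smul_right, hi, conj_trivial]
  simp [mul_comm]

theorem gram_eq (a b : Fin 4 → ℝ) :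
    ‖∑ i, a i • e i‖ ^ 2 * ‖∑ i, b i • e i‖ ^ 2 -
      (inner ℝ (∑ i, a i • e i) (∑ i, b i • e i)) ^ 2 = gram a b := by
  rw [← real_inner_self_eq_norm_sq, ← real_inner_self_eq_norm_sq, inner_sum, inner_sum, inner_sum,
    gram]
  simp only [sq]

theorem val_le (h : AlgCurv R) {b : ℝ} (hs : SecLe R b) (x y : Fin 4 → ℝ) :
    val (cmp e R) x y ≤ b * gram x y := by
  rw [val_cmp e h, ← gram_eq e]
  exact sec_any h hs _ _

theorem val_ge (h : AlgCurv R) {a : ℝ} (hs : SecGe R a) (x y : Fin 4 → ℝ) :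
    a * gram x y ≤ val (cmp e R) x y := by
  have h1 := sec_any (b := -a) (neg_curv h) (fun u v hu hv huv => by
    have := hs u v hu hv huv
    linarith) (∑ i, x i • e i) (∑ i, y i • e i)
  rw [gram_eq e] at h1
  rw [val_cmp e h]
  linarith

theorem eulA_neg (K : Fin 4 → Fin 4 → Fin 4 → Fin 4 → ℝ) :
    eulA (fun i j k l => - K i j k l) = eulA K := by
  unfold eulA wdg
  ring

theorem ponA_neg (K : Fin 4 → Fin 4 → Fin 4 → Fin 4 → ℝ) :
    ponA (fun i j k l => - K i j k l) = ponA K := by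
  unfold ponA wdg
  ring

theorem sclA_neg (K : Fin 4 → Fin 4 → Fin 4 → Fin 4 → ℝ) :
    sclA (fun i j k l => - K i j k l) = - sclA K := by
  simp only [sclA, sum_neg_distrib]

/-- lower curvature bound -/
theorem pt_ge (h : AlgCurv R) {k : ℝ} (hs : SecGe R k) :
    |pon e R| ≤ eul e R - (3 * (scal e R / 12) ^ 2 - 63 / 5 * (scal e R / 12 - k) ^ 2) := by
  have h1 := arr_mean (cmp_arr e h) (val_ge e h hs)
  unfold pon eul scal
  linarith

/-- upper curvature bound -/
theorem pt_le (h : AlgCurv R) {k : ℝ} (hs : SecLe R k) :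
    |pon e R| ≤ eul e R - (3 * (scal e R / 12) ^ 2 - 63 / 5 * (scal e R / 12 - k) ^ 2) := by
  have h1 := pt_ge e (neg_curv h) (k := -k) (fun u v hu hv huv => by
    have := hs u v hu hv huv
    linarith)
  have e1 : pon e (fun x y z w => - R x y z w) = pon e R := ponA_neg _
  have e2 : eul e (fun x y z w => - R x y z w) = eul e R := eulA_neg _
  have e3 : scal e (fun x y z w => - R x y z w) = - scal e R := sclA_neg _
  rw [e1, e2, e3] at h1
  have e4 : 3 * (-scal e R / 12) ^ 2 - 63 / 5 * (-scal e R / 12 - -k) ^ 2 =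
      3 * (scal e R / 12) ^ 2 - 63 / 5 * (scal e R / 12 - k) ^ 2 := by ring
  rw [e4] at h1
  exact h1

/-- positive quarter pinching -/
theorem pt_qpos (h : AlgCurv R) {c : ℝ} (hc : 0 ≤ c) (hs : SecGe R c) (hs' : SecLe R (4 * c)) :
    |pon e R| ≤ eul e R :=
  arr_quarter (cmp_arr e h) hc (val_ge e h hs) (val_le e h hs')

/-- negative quarter pinching -/
theorem pt_qneg (h : AlgCurv R) {c : ℝ} (hc : 0 ≤ c) (hs : SecLe R (-c))
    (hs' : SecGe R (-(4 * c))) : |pon e R| ≤ eul e R := by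
  have h1 := pt_qpos e (neg_curv h) hc (fun u v hu hv huv => by
    have := hs u v hu hv huv
    linarith) (fun u v hu hv huv => by
    have := hs' u v hu hv huv
    linarith)
  have e1 : pon e (fun x y z w => - R x y z w) = pon e R := ponA_neg _
  have e2 : eul e (fun x y z w => - R x y z w) = eul e R := eulA_neg _
  rw [e1, e2] at h1
  exact h1

end Pool.Agent.Run7.h82.BM
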